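import Mathlib
import Pool.Agent.H504.BP.Alg4

/-!
# Consistently the positive reals are partitioned into fewer than continuum many, but more than
one, Borel semirings

A finite support iteration of length `X + K`, where `K` is an uncountable well order of uncountable
cofinality and `X` is large, adds at each coordinate `k` of `K` an `F_σ` subset `C_k` of the Cantor
space, by finite approximations with side conditions, such that the sets `C_k` are pairwise
disjoint and their union `T` is a maximal set of points whose binary values are algebraically
independent over the rational numbers. So the values of the points of `T` form a transcendence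
basis of the real numbers, and there are the partial derivatives `∂ x / ∂ t`, `t ∈ T`, of each real
number `x`, all but finitely many of which vanish. For each `k` consider the greatest `t ∈ C_k`
such that `∂ x / ∂ t ≠ 0`, and put `k` in `a` or `b` if this derivative is positive or negative. The
set of all positive `x` with a given pair `(a, b)` of finite subsets of `K` is closed under addition
and multiplication, and it is sigma-compact. There are at least two and at most `|K| < 𝔠` nonempty
sets of this form.
-/

set_option autoImplicit false

open Cardinal

namespace Pool.Agent.Results.MP_afbdfd_lc.ConsistentPartition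

open Pool.Agent.H504.BP (HH FH SafeA BorelPartition semiring_partition safeHyp exists_poset)
open Pool.Agent.Helper669.Forcing (CardinalsPreserved)

/-- The well order `ω₁`. -/
abbrev Om1 : Type := (Order.succ (ℵ₀ : Cardinal.{0})).ord.ToType

theorem mk_Om1 : #Om1 = Order.succ ℵ₀ := by
  rw [mk_toType, card_ord]

theorem bounded (S : Set Om1) (hS : S.Countable) : ∃ b, ∀ s ∈ S, s < b := by
  have h1 : Cardinal.IsRegular (Order.succ (ℵ₀ : Cardinal.{0})) := isRegular_succ le_rfl
  by_contra hcon
  push Not at hcon
  have hc : IsCofinal S := fun b => by
    obtain ⟨s, hs, hb⟩ := hcon b
    exact ⟨s, hs, hb⟩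
  have h2 := Order.cof_le hc
  rw [Ordinal.cof_toType, h1.cof_ord] at h2
  exact absurd (h2.trans (le_aleph0_iff_set_countable.2 hS)) (not_le.2 (Order.lt_succ _))

/-- It is consistent with ZFC that the positive reals are partitioned into Borel semirings, more
than one and fewer than continuum many. -/
theorem result :
    (∀ (K : Type) [LinearOrder K] [Infinite K], HH SafeA K →
      ∃ Q : Set (Set ℝ), BorelPartition Q ∧ (∀ B ∈ Q, IsSigmaCompact B) ∧ 1 < #Q ∧ #Q < 𝔠) ∧
    ∃ (P : Type) (_ : Preorder P), Nonempty P ∧
      ∀ p : P, p ∈ CardinalsPreserved.{0, 0} P ∧ p ∈ FH SafeA P Om1 := by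
  refine ⟨fun K _ _ h => semiring_partition h, ?_⟩
  have h1 : Nonempty Om1 := by
    rw [← mk_ne_zero_iff, mk_Om1]
    exact (lt_of_lt_of_le (aleph0_pos) (Order.le_succ _)).ne'
  exact exists_poset safeHyp.hanti safeHyp.hnil bounded

end Pool.Agent.Results.MP_afbdfd_lc.ConsistentPartition
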